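import Pool.Agent.Lib.MP_bf61d2_nt.Artin.T.DefsX84
import Pool.Agent.Lib.MP_bf61d2_nt.Artin.T7
import Pool.Agent.Lib.MP_bf61d2_nt.Line

set_option autoImplicit false

/-!
Conductor aspect (MP_bf61d2_nt), module LTX: the logarithm of the L-series of an elliptic curve
twisted by a Dirichlet character, with a uniform error.
-/

namespace Pool.Agent.Lib.MP_bf61d2_nt

open ArithmeticFunction Filter Topology LSeries

namespace LTX84

section euler

variable {ι : Type*} {f : ι → ArithmeticFunction ℤ} {N : ℕ} (χ : DirichletCharacter ℂ N)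

/-- The twisted L-series of a finite product. -/
lemma hasSum_prod_chi {g : ι → ArithmeticFunction ℤ} {s : ℂ} {β : ι → ℂ}
    (h : ∀ i, LSeriesHasSum (fun n => χ n * ((g i n : ℤ) : ℂ)) s (β i)) (S : Finset ι) :
    LSeriesHasSum (fun n => χ n * (((∏ i ∈ S, g i) n : ℤ) : ℂ)) s (∏ i ∈ S, β i) := by
  classical
  induction S using Finset.induction_on with
  | empty =>
    rw [Finset.prod_empty, Finset.prod_empty]
    have e : term (fun n => χ n * (((1 : ArithmeticFunction ℤ) n : ℤ) : ℂ)) s =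
        fun n => if n = 1 then 1 else 0 := by
      ext n
      rw [term_def]
      by_cases hn : n = 1
      · subst hn; simp
      · simp [one_apply_ne hn, hn]
    rw [LSeriesHasSum, e]
    exact hasSum_ite_eq 1 1
  | insert i S hi ih =>
    rw [Finset.prod_insert hi, Finset.prod_insert hi]
    have h1 := (h i).convolution ih
    have e : LSeries.convolution (fun n : ℕ => χ n * ((g i n : ℤ) : ℂ))
        (fun n : ℕ => χ n * (((∏ i ∈ S, g i) n : ℤ) : ℂ)) =
        fun n : ℕ => χ n * (((g i * ∏ i ∈ S, g i) n : ℤ) : ℂ) := by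
      have h2 := DirichletCharacter.mul_convolution_distrib χ (fun n : ℕ => ((g i n : ℤ) : ℂ))
        (fun n : ℕ => (((∏ i ∈ S, g i) n : ℤ) : ℂ))
      refine Eq.trans h2 ?_
      ext n
      rw [Pi.mul_apply]
      congr 1
      rw [LSeries.convolution_def, mul_apply]
      push_cast
      rfl
    rwa [e] at h1

/-- Euler product of the twist of a formal Euler product. -/
theorem eulerProduct_chi (h1 : ∀ i, f i 1 = 1)
    (hcof : ∀ n, ∀ᶠ i in cofinite, f i n = (1 : ArithmeticFunction ℤ) n) {σ : ℝ} {x : ι → ℝ}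
    (hx : Summable x) (hx0 : ∀ i, 0 ≤ x i)
    (hsum : ∀ i, LSeriesSummable (fun n => ((f i n : ℤ) : ℂ)) σ)
    (hle : ∀ i, ∑' n, ‖term (fun n => ((f i n : ℤ) : ℂ)) (σ : ℂ) n‖ ≤ 1 + x i) {s : ℂ}
    (hs : σ ≤ s.re) :
    Tendsto (fun S : Finset ι => ∏ i ∈ S, LSeries (fun n => χ n * ((f i n : ℤ) : ℂ)) s) atTop
        (𝓝 (LSeries (fun n => χ n * ((eulerProduct f n : ℤ) : ℂ)) s)) := by
  classical
  set β : ι → ℝ := fun i => ∑' n, ‖term (fun n => ((f i n : ℤ) : ℂ)) (σ : ℂ) n‖ with hβ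
  have hβ0 : ∀ i, 0 ≤ β i := fun i => tsum_nonneg fun _ => norm_nonneg _
  set B : ℝ := Real.exp (∑' i, x i) with hB
  -- the L-series of the absolute values
  have habs : ∀ i, LSeriesHasSum (fun n => ((absA (f i) n : ℤ) : ℂ)) (σ : ℂ) (β i : ℂ) := by
    intro i
    have e : term (fun n => ((absA (f i) n : ℤ) : ℂ)) (σ : ℂ) =
        fun n => ((‖term (fun n => ((f i n : ℤ) : ℂ)) (σ : ℂ) n‖ : ℝ) : ℂ) := by
      ext n; exact term_abs (f i) σ n
    rw [LSeriesHasSum, e]
    exact Complex.hasSum_ofReal.mpr (hsum i).norm.hasSum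
  -- bound for finite products
  have hbound : ∀ (S : Finset ι) (T : Finset ℕ),
      ∑ n ∈ T, ‖term (fun n => (((∏ i ∈ S, absA (f i)) n : ℤ) : ℂ)) (σ : ℂ) n‖ ≤ B := by
    intro S T
    have h := hasSum_prod habs S
    have e : term (fun n => (((∏ i ∈ S, absA (f i)) n : ℤ) : ℂ)) (σ : ℂ) =
        fun n => ((‖term (fun n => (((∏ i ∈ S, absA (f i)) n : ℤ) : ℂ)) (σ : ℂ) n‖ : ℝ) : ℂ) := by
      ext n
      rw [← term_abs]
      congr 1
      ext n
      rw [abs_of_nonneg (prodAbs_nonneg S n)]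
    rw [LSeriesHasSum, e, ← Complex.ofReal_prod, Complex.hasSum_ofReal] at h
    refine (sum_le_hasSum T (fun _ _ => norm_nonneg _) h).trans ?_
    calc ∏ i ∈ S, β i ≤ ∏ i ∈ S, Real.exp (x i) := by
          refine Finset.prod_le_prod (fun i _ => hβ0 i) fun i _ => (hle i).trans ?_
          rw [add_comm]; exact Real.add_one_le_exp _
      _ = Real.exp (∑ i ∈ S, x i) := (Real.exp_sum _ _).symm
      _ ≤ B := Real.exp_le_exp.mpr (hx.sum_le_tsum S fun i _ => hx0 i)
  -- pointwise convergence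
  have hconv := tendsTo_eulerProduct_of_tendsTo f hcof
  have hcof' : ∀ n, ∀ᶠ i in cofinite, absA (f i) n = (1 : ArithmeticFunction ℤ) n := by
    intro n
    filter_upwards [hcof n] with i hi
    rw [absA_apply, hi, one_apply]
    split_ifs <;> simp
  have hconv' := tendsTo_eulerProduct_of_tendsTo (fun i => absA (f i)) hcof'
  set aI : ArithmeticFunction ℤ := eulerProduct (fun i => absA (f i)) with haI
  have hleI : ∀ (S : Finset ι) (n : ℕ), (∏ i ∈ S, absA (f i)) n ≤ aI n := by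
    intro S n
    obtain ⟨T, hT⟩ := (hconv' n).exists_forall_of_atTop
    have h2 := hT (S ∪ T) Finset.subset_union_right
    rw [← h2]
    exact prodAbs_mono h1 Finset.subset_union_left n
  have hnnI : ∀ n, 0 ≤ aI n := fun n => by
    have := hleI ∅ n
    exact (prodAbs_nonneg ∅ n).trans this
  -- summability of the majorant
  have hsumI : Summable fun n => ‖term (fun n => ((aI n : ℤ) : ℂ)) (σ : ℂ) n‖ := by
    refine summable_of_sum_le (fun _ => norm_nonneg _) (c := B) fun T => ?_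
    have h2 : ∀ᶠ S : Finset ι in atTop, ∀ n ∈ T, (∏ i ∈ S, absA (f i)) n = aI n :=
      (Filter.eventually_all_finset T).mpr fun n _ => hconv' n
    obtain ⟨S, hS⟩ := h2.exists
    refine le_trans (le_of_eq (Finset.sum_congr rfl fun n hn => ?_)) (hbound S T)
    rw [norm_term_eq, norm_term_eq, hS n hn]
  have hdom : ∀ (S : Finset ι) (n : ℕ),
      ‖term (fun n => χ n * (((∏ i ∈ S, f i) n : ℤ) : ℂ)) s n‖ ≤
      ‖term (fun n => ((aI n : ℤ) : ℂ)) (σ : ℂ) n‖ := by
    intro S n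
    refine (norm_term_le_of_re_le_re _ (s := (σ : ℂ)) (s' := s) (by simpa using hs) n).trans ?_
    refine norm_term_le _ ?_
    rw [norm_mul, Complex.norm_intCast, Complex.norm_intCast]
    have h2 := (abs_prod_le (f := f) S n).trans (hleI S n)
    rw [abs_of_nonneg (by exact_mod_cast hnnI n : (0 : ℝ) ≤ ((aI n : ℤ) : ℝ))]
    have h3 : ‖χ n‖ * |(((∏ i ∈ S, f i) n : ℤ) : ℝ)| ≤ 1 * |(((∏ i ∈ S, f i) n : ℤ) : ℝ)| :=
      mul_le_mul_of_nonneg_right (DirichletCharacter.norm_le_one χ _) (abs_nonneg _)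
    rw [one_mul] at h3
    refine h3.trans ?_
    exact_mod_cast h2
  have hlim : ∀ n, Tendsto (fun S : Finset ι =>
      term (fun n => χ n * (((∏ i ∈ S, f i) n : ℤ) : ℂ)) s n)
      atTop (𝓝 (term (fun n => χ n * ((eulerProduct f n : ℤ) : ℂ)) s n)) := by
    intro n
    refine tendsto_const_nhds.congr' ?_
    filter_upwards [hconv n] with S hS
    rw [term_def, term_def, hS]
  have hsum' : ∀ i, LSeriesSummable (fun n => χ n * ((f i n : ℤ) : ℂ)) s := by
    intro i
    have h2 : LSeriesSummable (fun n => ((f i n : ℤ) : ℂ)) s :=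
      LSeriesSummable.of_re_le_re (s := (σ : ℂ)) (by simpa using hs) (hsum i)
    refine Summable.of_norm_bounded h2.norm fun n => ?_
    refine norm_term_le _ ?_
    rw [norm_mul]
    exact mul_le_of_le_one_left (norm_nonneg _) (DirichletCharacter.norm_le_one χ _)
  have h3 := tendsto_tsum_of_dominated_convergence hsumI hlim (Eventually.of_forall hdom)
  refine h3.congr fun S => ?_
  have h4 := hasSum_prod_chi χ (g := f) (s := s) (fun i => (hsum' i).LSeriesHasSum) S
  exact h4.LSeries_eq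

end euler

open NumberField IsDedekindDomain

section loc

variable {K : Type*} [Field K] [NumberField K] (W : WeierstrassCurve K)
  (v : HeightOneSpectrum (𝓞 K))

/-- The twisted local variable. -/
noncomputable def zw (ω s : ℂ) : ℂ :=
  tr W v * (ω * (nm v : ℂ) ^ (-s)) - bb W v * (ω * (nm v : ℂ) ^ (-s)) ^ 2

lemma xi_bound {ω : ℂ} (hω : ‖ω‖ ≤ 1) (s : ℂ) :
    |((tr W v : ℤ) : ℝ)| * ‖ω * (nm v : ℂ) ^ (-s)‖ +
      |((bb W v : ℤ) : ℝ)| * ‖ω * (nm v : ℂ) ^ (-s)‖ ^ 2 ≤ xi W v s.re := by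
  have h1 : ‖ω * (nm v : ℂ) ^ (-s)‖ ≤ (nm v : ℝ) ^ (-s.re) := by
    rw [norm_mul, norm_cpow]
    exact mul_le_of_le_one_left (Real.rpow_nonneg (nm_pos v).le _) hω
  rw [xi]
  gcongr

lemma norm_zw_le {ω : ℂ} (hω : ‖ω‖ ≤ 1) (s : ℂ) : ‖zw W v ω s‖ ≤ xi W v s.re := by
  refine le_trans ?_ (xi_bound W v hω s)
  rw [zw]
  refine (norm_sub_le _ _).trans (le_of_eq ?_)
  rw [norm_mul (tr W v : ℂ), norm_mul (bb W v : ℂ), norm_pow, Complex.norm_intCast,
    Complex.norm_intCast]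

lemma norm_log_sub_le {z : ℂ} (h1 : ‖z‖ ≤ 24 / 25) :
    ‖-Complex.log (1 - z) - z‖ ≤ 25 / 2 * ‖z‖ ^ 2 := by
  have h2 := Complex.norm_log_one_add_sub_self_le (z := -z) (by rw [norm_neg]; linarith)
  rw [norm_neg] at h2
  have e : -Complex.log (1 - z) - z = -(Complex.log (1 + -z) - -z) := by
    rw [sub_eq_add_neg 1]; ring
  rw [e, norm_neg]
  refine h2.trans ?_
  have h3 : (1 - ‖z‖)⁻¹ ≤ 25 := by
    rw [inv_le_comm₀ (by linarith) (by norm_num)]
    linarith
  have h4 : 0 ≤ ‖z‖ ^ 2 := by positivity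
  nlinarith

lemma norm_lam_le {ω : ℂ} (hω : ‖ω‖ ≤ 1) {s : ℂ} (hs : 3 / 2 ≤ s.re) :
    ‖-Complex.log (1 - zw W v ω s)‖ ≤ 14 * xi W v s.re := by
  have h3 := norm_zw_le W v hω s
  have h2 := h3.trans (xi_le W v hs)
  have h1 := norm_log_sub_le h2
  have h4 : ‖-Complex.log (1 - zw W v ω s)‖ ≤ ‖-Complex.log (1 - zw W v ω s) - zw W v ω s‖ +
      ‖zw W v ω s‖ := by
    have := norm_add_le (-Complex.log (1 - zw W v ω s) - zw W v ω s) (zw W v ω s)
    rwa [sub_add_cancel] at this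
  have h5 := norm_nonneg (zw W v ω s)
  nlinarith

lemma norm_rho_le {ω : ℂ} (hω : ‖ω‖ ≤ 1) {s : ℂ} (hs : 3 / 2 ≤ s.re) :
    ‖-Complex.log (1 - zw W v ω s) - cc W v * (ω * (nm v : ℂ) ^ (-(s - 1 / 2)))‖ ≤
      150 / (pr v : ℝ) ^ 2 := by
  have hp0 : (0 : ℝ) < pr v := by exact_mod_cast (pr_prime v).pos
  have hq := nm_pos v
  have hzl : ‖zw W v ω s‖ ≤ 24 / 25 := (norm_zw_le W v hω s).trans (xi_le W v hs)
  by_cases hp : pr v = 2
  · have e : (cc W v : ℂ) * (ω * (nm v : ℂ) ^ (-(s - 1 / 2))) = 0 := by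
      rw [cc, if_neg (by simp [hp])]; simp
    rw [e, sub_zero, hp]
    have h1 := norm_lam_le W v hω hs
    have h2 := xi_le W v hs
    have h3 : (150 : ℝ) / ((2 : ℕ) : ℝ) ^ 2 = 75 / 2 := by norm_num
    rw [h3]
    linarith
  · obtain ⟨h1, -⟩ := xi_le_of_odd W v hp hs
    have h2 := wt_le v hs
    have hw := wt_pos v s.re
    have hz : ‖zw W v ω s‖ ≤ 3 / nm v := by
      calc ‖zw W v ω s‖ ≤ xi W v s.re := norm_zw_le W v hω s
        _ ≤ 3 * wt v s.re := h1
        _ ≤ 3 * (1 / nm v) := by gcongr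
        _ = 3 / nm v := by ring
    by_cases hd : nm v = pr v
    · have e : -Complex.log (1 - zw W v ω s) - cc W v * (ω * (nm v : ℂ) ^ (-(s - 1 / 2))) =
          (-Complex.log (1 - zw W v ω s) - zw W v ω s) -
            bb W v * (ω * (nm v : ℂ) ^ (-s)) ^ 2 := by
        have e1 : (cc W v : ℂ) * (nm v : ℂ) ^ (-(s - 1 / 2)) = tr W v * (nm v : ℂ) ^ (-s) := by
          rw [sqrt_cpow v s, cc, if_pos ⟨hp, hd⟩]
          push_cast
          ring
        have e2 : (cc W v : ℂ) * (ω * (nm v : ℂ) ^ (-(s - 1 / 2))) =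
            tr W v * (ω * (nm v : ℂ) ^ (-s)) := by
          calc (cc W v : ℂ) * (ω * (nm v : ℂ) ^ (-(s - 1 / 2))) =
              ω * ((cc W v : ℂ) * (nm v : ℂ) ^ (-(s - 1 / 2))) := by ring
            _ = ω * (tr W v * (nm v : ℂ) ^ (-s)) := by rw [e1]
            _ = _ := by ring
        rw [e2, zw]; ring
      rw [e]
      have h4 : ‖(bb W v : ℂ) * (ω * (nm v : ℂ) ^ (-s)) ^ 2‖ ≤ 1 / (nm v : ℝ) ^ 2 := by
        rw [norm_mul, norm_pow, norm_mul, norm_cpow, Complex.norm_intCast]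
        have h5 : ‖ω‖ * (nm v : ℝ) ^ (-s.re) ≤ (nm v : ℝ) ^ (-s.re) :=
          mul_le_of_le_one_left (Real.rpow_nonneg (nm_pos v).le _) hω
        have h6 : |(bb W v : ℝ)| * (‖ω‖ * (nm v : ℝ) ^ (-s.re)) ^ 2 ≤
            |(bb W v : ℝ)| * ((nm v : ℝ) ^ (-s.re)) ^ 2 := by
          gcongr
        refine h6.trans ((bb_term_le W v s.re).trans ?_)
        calc wt v s.re ^ 2 ≤ (1 / nm v) ^ 2 := pow_le_pow_left₀ hw.le h2 2
          _ = 1 / (nm v : ℝ) ^ 2 := by ring
      have h5 : ‖-Complex.log (1 - zw W v ω s) - zw W v ω s‖ ≤ 225 / 2 / (nm v : ℝ) ^ 2 := by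
        refine (norm_log_sub_le hzl).trans ?_
        calc 25 / 2 * ‖zw W v ω s‖ ^ 2 ≤ 25 / 2 * (3 / nm v) ^ 2 := by gcongr
          _ = 225 / 2 / (nm v : ℝ) ^ 2 := by ring
      rw [← hd]
      calc _ ≤ ‖-Complex.log (1 - zw W v ω s) - zw W v ω s‖ +
            ‖(bb W v : ℂ) * (ω * (nm v : ℂ) ^ (-s)) ^ 2‖ := norm_sub_le _ _
        _ ≤ 225 / 2 / (nm v : ℝ) ^ 2 + 1 / (nm v : ℝ) ^ 2 := add_le_add h5 h4
        _ ≤ 150 / (nm v : ℝ) ^ 2 := by
            rw [← add_div]
            gcongr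
            norm_num
    · have e : (cc W v : ℂ) * (ω * (nm v : ℂ) ^ (-(s - 1 / 2))) = 0 := by
        rw [cc, if_neg (by tauto)]; simp
      rw [e, sub_zero]
      have h3 : ((pr v : ℝ)) ^ 2 ≤ nm v := by exact_mod_cast sq_pr_le_nm v hd
      calc ‖-Complex.log (1 - zw W v ω s)‖ ≤ 14 * xi W v s.re := norm_lam_le W v hω hs
        _ ≤ 14 * (3 * (1 / nm v)) := by
            have : xi W v s.re ≤ 3 * (1 / nm v) := h1.trans (by gcongr)
            gcongr
        _ = 42 / nm v := by ring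
        _ ≤ 150 / (pr v : ℝ) ^ 2 := by
            gcongr
            norm_num

/-- The local factor of the twist. -/
lemma hasSum_fac_chi {N : ℕ} (χ : DirichletCharacter ℂ N) {s : ℂ} (hs : 3 / 2 ≤ s.re) :
    LSeriesHasSum (fun n => χ n * ((fac W v n : ℤ) : ℂ)) s
      (1 - zw W v (χ (nm v)) s)⁻¹ := by
  have hq := one_lt_nm v
  have hinj : Function.Injective fun k : ℕ => nm v ^ k := Nat.pow_right_injective hq
  rw [LSeriesHasSum, ← hinj.hasSum_iff]
  · have e : (term (fun n => χ n * ((fac W v n : ℤ) : ℂ)) s) ∘ (fun k : ℕ => nm v ^ k) =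
        fun k : ℕ => ((inv (tr W v) (bb W v)).coeff k : ℂ) *
          (χ (nm v) * (nm v : ℂ) ^ (-s)) ^ k := by
      ext k
      have hqk : nm v ^ k ≠ 0 := pow_ne_zero k (by omega)
      have h1 : χ ((nm v ^ k : ℕ) : ZMod N) = χ (nm v) ^ k := by rw [Nat.cast_pow, map_pow]
      have h2 : (((nm v ^ k : ℕ) : ℂ) ^ s)⁻¹ = ((nm v : ℂ) ^ (-s)) ^ k := by
        rw [← Complex.cpow_neg, Nat.cast_pow, ← Complex.natCast_cpow_natCast_mul,
          Complex.cpow_nat_mul]
      rw [Function.comp_apply, term_of_ne_zero hqk, fac, ofPowerSeries_apply_pow hq,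
        div_eq_mul_inv, h2, h1, mul_pow]
      ring
    rw [e]
    exact hasSum_inv (a := tr W v) (b := bb W v) (T := χ (nm v) * (nm v : ℂ) ^ (-s))
      (x := xi W v s.re) (xi_bound W v (DirichletCharacter.norm_le_one χ _) s)
      (by have := xi_le W v hs; linarith)
  · intro n hn
    rw [term_def]
    split_ifs with h0
    · rfl
    · rw [fac, ofPowerSeries_apply hq, Function.extend_apply']
      · simp
      · rintro ⟨k, hk⟩
        exact hn ⟨k, hk⟩

/-- The twisted L-series as an exponential. -/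
theorem lseries_chi_eq_exp {N : ℕ} (χ : DirichletCharacter ℂ N) {s : ℂ} (hs : 3 / 2 < s.re) :
    LSeries (fun n => χ n * ((W.LFunction n : ℤ) : ℂ)) s =
      Complex.exp (∑' v : HeightOneSpectrum (𝓞 K), -Complex.log (1 - zw W v (χ (nm v)) s)) := by
  have hχ : ∀ v : HeightOneSpectrum (𝓞 K), ‖χ (nm v)‖ ≤ 1 := fun v =>
    DirichletCharacter.norm_le_one χ _
  have h := eulerProduct_chi χ (f := fac W) (fun v => fac_one W v) (fac_cofinite W)
    (σ := s.re) (x := fun v => 25 * xi W v s.re) ((summable_xi W hs).mul_left 25)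
    (fun v => mul_nonneg (by norm_num) (xi_nonneg W v _))
    (fun v => (hasSum_fac W v (s := (s.re : ℂ)) (by simpa using hs.le)).LSeriesSummable)
    (fun v => tsum_norm_fac W v hs.le) (s := s) le_rfl
  rw [← LFunction_eq] at h
  have hsl : Summable fun v : HeightOneSpectrum (𝓞 K) =>
      -Complex.log (1 - zw W v (χ (nm v)) s) :=
    Summable.of_norm_bounded ((summable_xi W hs).mul_left 14) fun v =>
      norm_lam_le W v (hχ v) hs.le
  have h2 : Tendsto (fun S : Finset (HeightOneSpectrum (𝓞 K)) =>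
      Complex.exp (∑ v ∈ S, -Complex.log (1 - zw W v (χ (nm v)) s))) atTop
      (𝓝 (Complex.exp (∑' v : HeightOneSpectrum (𝓞 K),
        -Complex.log (1 - zw W v (χ (nm v)) s)))) :=
    (Complex.continuous_exp.tendsto _).comp hsl.hasSum
  have e : ∀ S : Finset (HeightOneSpectrum (𝓞 K)),
      Complex.exp (∑ v ∈ S, -Complex.log (1 - zw W v (χ (nm v)) s)) =
        ∏ v ∈ S, LSeries (fun n => χ n * ((fac W v n : ℤ) : ℂ)) s := by
    intro S
    rw [Complex.exp_sum]
    refine Finset.prod_congr rfl fun v _ => ?_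
    have h3 : ‖zw W v (χ (nm v)) s‖ ≤ 24 / 25 :=
      (norm_zw_le W v (hχ v) s).trans (xi_le W v hs.le)
    have hne : 1 - zw W v (χ (nm v)) s ≠ 0 := by
      intro h
      have : ‖(1 : ℂ)‖ = ‖zw W v (χ (nm v)) s‖ := by rw [sub_eq_zero.mp h]
      rw [norm_one] at this
      linarith
    rw [(hasSum_fac_chi W v χ hs.le).LSeries_eq, Complex.exp_neg, Complex.exp_log hne]
  simp_rw [e] at h2
  exact tendsto_nhds_unique h h2

end loc

end LTX84

namespace Artin

open NumberField IsDedekindDomain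

variable (K : Type*) [Field K] [NumberField K]

/-- LTX: the twisted L-series of `E`. -/
theorem log_X : ∃ A : ℝ, 0 ≤ A ∧ ∀ (E : WeierstrassCurve K) (m : ℕ) [NeZero m]
    (χ : DirichletCharacter ℂ m) (δ t : ℝ), 0 < δ →
      |Real.log ‖LSeries (fun n => χ n * (E.LFunction n : ℂ)) ((3 / 2 + δ : ℝ) + t * Complex.I)‖ -
        (CX (K := K) (fun v => cc E v) χ δ t).re| ≤ A := by
  refine ⟨RB K, RB_nonneg, fun E m hm χ δ t hδ => ?_⟩
  have hχ : ∀ v : HeightOneSpectrum (𝓞 K), ‖χ (nm v)‖ ≤ 1 := fun v =>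
    DirichletCharacter.norm_le_one χ _
  set s : ℂ := (3 / 2 + δ : ℝ) + t * Complex.I with hs
  have hre : s.re = 3 / 2 + δ := by simp [hs]
  have h1 : 3 / 2 < s.re := by rw [hre]; linarith
  rw [LTX84.lseries_chi_eq_exp E χ h1, Complex.norm_exp, Real.log_exp, ← Complex.sub_re]
  refine (Complex.abs_re_le_norm _).trans ?_
  have hsl : Summable fun v : HeightOneSpectrum (𝓞 K) =>
      -Complex.log (1 - LTX84.zw E v (χ (nm v)) s) :=
    Summable.of_norm_bounded ((summable_xi E h1).mul_left 14) fun v =>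
      LTX84.norm_lam_le E v (hχ v) h1.le
  have hterm : ∀ v : HeightOneSpectrum (𝓞 K),
      (wp (1 + δ) v : ℂ) * ((cc E v : ℂ) * (χ (nm v) * ph t (nm v))) =
        cc E v * (χ (nm v) * (nm v : ℂ) ^ (-(s - 1 / 2))) := by
    intro v
    rw [hs, cpow_eq_ph]
    ring
  have hs2 : Summable fun v : HeightOneSpectrum (𝓞 K) =>
      (wp (1 + δ) v : ℂ) * ((cc E v : ℂ) * (χ (nm v) * ph t (nm v))) := by
    refine Summable.of_norm_bounded ((summable_wp (K := K) (by linarith : 1 < 1 + δ)).mul_left 2)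
      fun v => ?_
    rw [norm_mul, norm_mul, norm_mul, norm_ph, mul_one, Complex.norm_real, Complex.norm_real,
      Real.norm_eq_abs, Real.norm_eq_abs, abs_of_pos (wp_pos _ v)]
    have h3 : |cc E v| * ‖χ (nm v)‖ ≤ 2 * 1 :=
      mul_le_mul (abs_cc_le E v) (hχ v) (norm_nonneg _) (by norm_num)
    have := wp_pos (1 + δ) v
    nlinarith
  rw [CX, SC, ← hsl.tsum_sub hs2]
  refine tsum_of_norm_bounded summable_bound.hasSum fun v => ?_
  rw [hterm v]
  exact LTX84.norm_rho_le E v (hχ v) h1.le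

end Artin

end Pool.Agent.Lib.MP_bf61d2_nt
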