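import Pool.Agent.Lib.MP_bf61d2_nt.Artin.U.DefsU

set_option autoImplicit false

/-!
EDGE REPULSION in the conductor aspect (MP_bf61d2_nt): definitions.
-/

namespace Pool.Agent.Lib.MP_bf61d2_nt.Artin

open NumberField IsDedekindDomain

/-- The Jacobi symbol of `d` at an odd number, `0` at an even number. -/
def js (d n : ℕ) : ℤ := if 2 ∣ n then 0 else jacobiSym d n

/-- `log log (m (|u| + 20))`. -/
noncomputable def lm (m : ℕ) (u : ℝ) : ℝ := Real.log (Real.log (m * (|u| + 20)))

/-- `log log Q`. -/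
noncomputable def lq (Q : ℝ) : ℝ := Real.log (Real.log Q)

/-- The prime sum of the character `js D`. -/
noncomputable def JS (K : Type*) [Field K] [NumberField K] (D : ℕ) (x u : ℝ) : ℂ :=
  SC (K := K) (1 + x) (fun v => (js D (nm v) : ℂ) * ph u (nm v))

/-- The twisted prime sum of the coefficients `c`. -/
noncomputable def CJ {K : Type*} [Field K] [NumberField K] (c : HeightOneSpectrum (𝓞 K) → ℝ)
    (D : ℕ) (x u : ℝ) : ℂ :=
  SC (K := K) (1 + x) (fun v => (c v : ℂ) * ((js D (nm v) : ℂ) * ph u (nm v)))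

end Pool.Agent.Lib.MP_bf61d2_nt.Artin
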