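import Pool.Agent.Lib.MP_bf61d2_nt.Artin.T.DefsT84

set_option autoImplicit false

/-!
EDGE REPULSION in the conductor aspect, all even Dirichlet characters (MP_bf61d2_nt): definitions.
-/

namespace Pool.Agent.Lib.MP_bf61d2_nt.Artin

open NumberField IsDedekindDomain

variable (K : Type*) [Field K] [NumberField K]

/-- The prime sum of a Dirichlet character of the norm. -/
noncomputable def XS {m : ℕ} (χ : DirichletCharacter ℂ m) (x u : ℝ) : ℂ :=
  SC (K := K) (1 + x) (fun v => χ (nm v) * ph u (nm v))

/-- The character is trivial on the norms of the places prime to the modulus. -/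
def PN {m : ℕ} (χ : DirichletCharacter ℂ m) : Prop :=
  ∀ v : HeightOneSpectrum (𝓞 K), Nat.Coprime (nm v) m → χ (nm v) = 1

/-- The Dirichlet series is bounded near `1`. -/
def BN {m : ℕ} (χ : DirichletCharacter ℂ m) : Prop :=
  ∃ B : ℝ, ∀ y : ℝ, 0 < y → y ≤ 1 → ‖LF K (fun n => χ n) ((1 + y : ℝ) : ℂ)‖ ≤ B

/-- The product of two characters, modulo the product of the moduli. -/
noncomputable def pc {m m' : ℕ} (χ : DirichletCharacter ℂ m) (χ' : DirichletCharacter ℂ m') :
    DirichletCharacter ℂ (m * m') :=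
  DirichletCharacter.changeLevel (dvd_mul_right m m') χ *
    DirichletCharacter.changeLevel (dvd_mul_left m' m) χ'

/-- The prime sum with coefficients. -/
noncomputable def CX {K : Type*} [Field K] [NumberField K] (c : HeightOneSpectrum (𝓞 K) → ℝ)
    {m : ℕ} (χ : DirichletCharacter ℂ m) (x u : ℝ) : ℂ :=
  SC (K := K) (1 + x) (fun v => (c v : ℂ) * (χ (nm v) * ph u (nm v)))

end Pool.Agent.Lib.MP_bf61d2_nt.Artin
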